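import Pool.Agent.H68.OWN.Uv

/-!
# Few bits given the near data

`few_of`: a variable which is few bits given a record `R` and the near data `Z`, and few bits given
the far data `Φ` and `Z`, is few bits given `Z`, if the far data are as free given `(R, Z)` as given
`Z`. `few_ev`: the same on a law of bounded density.
-/

set_option autoImplicit false

namespace Pool.S2H13

open Finset Real
open Pool.Agent.H49.Ent Pool.Agent.H32.Dense Pool.STK Pool.OWN68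

/-- **Few bits given the near data.** -/
theorem few_of {Ω S T U V : Type} [Fintype Ω] {p : Ω → ℝ} (h0 : ∀ ω, 0 ≤ p ω) (d : Ω → S)
    (Z : Ω → T) (R : Ω → U) (Φ : Ω → V) {e₁ e₂ e₃ : ℝ}
    (h1 : CH p d (fun ω => (R ω, Z ω)) ≤ e₁) (h2 : CH p d (fun ω => (Φ ω, Z ω)) ≤ e₂)
    (h3 : CH p Φ Z - e₃ ≤ CH p Φ (fun ω => (R ω, Z ω))) : CH p d Z ≤ e₁ + e₂ + e₃ := by
  have a1 := CH_chain h0 d Φ Z
  have a2 := CH_chain2 h0 d Φ Z
  have a3 := CH_mono_cond h0 (X := Φ) (W' := fun ω => (R ω, (d ω, Z ω)))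
    (W := fun ω => (d ω, Z ω)) (fun ω ω' _ _ h => (Prod.ext_iff.mp h).2)
  have a4 := CH_congr h0 (X := Φ) (X' := Φ) (W := fun ω => (R ω, (d ω, Z ω)))
    (W' := fun ω => (d ω, (R ω, Z ω)))
    (fun ω ω' _ _ h => by simp only [Prod.mk.injEq] at h ⊢; tauto)
    (fun ω ω' _ _ h => by simp only [Prod.mk.injEq] at h ⊢; tauto)
    (fun ω ω' _ _ h => by simp only [Prod.mk.injEq] at h ⊢; tauto)
    (fun ω ω' _ _ h => by simp only [Prod.mk.injEq] at h ⊢; tauto)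
  have a5 := CH_chain2 h0 d Φ (fun ω => (R ω, Z ω))
  have a6 := CH_chain h0 d Φ (fun ω => (R ω, Z ω))
  have a7 := CH_nonneg h0 d (fun ω => (Φ ω, (R ω, Z ω)))
  linarith

/-- **Few bits given the near data**, for a law of bounded density and a record which is as free. -/
theorem few_free {Ω S T U V : Type} [Fintype Ω] {p : Ω → ℝ} (h0 : ∀ ω, 0 ≤ p ω) (d : Ω → S)
    (Z : Ω → T) (R : Ω → U) (Φ : Ω → V) {e₁ e₂ e₃ L : ℝ}
    (h1 : CH p d (fun ω => (R ω, Z ω)) ≤ e₁) (h2 : CH p d (fun ω => (Φ ω, Z ω)) ≤ e₂)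
    (h3 : CH p Φ Z ≤ L) (h4 : L - e₃ ≤ CH p Φ (fun ω => (R ω, Z ω))) :
    CH p d Z ≤ e₁ + e₂ + e₃ :=
  few_of h0 d Z R Φ h1 h2 (by linarith)

end Pool.S2H13
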